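import Mathlib
import Pool.Agent.helper82.CycH

set_option autoImplicit false

namespace Pool.Agent.Results.MP_99db3a_nt.NotMonotone

/-- `realCritCount m` is the number `N_m` of real roots of the derivative of the `m`-th cyclotomic
polynomial, counted with multiplicity. -/
noncomputable def realCritCount (m : ℕ) : ℕ :=
  (Polynomial.derivative (Polynomial.cyclotomic m ℝ)).roots.card

/-- `N_{np} ≤ N_{np'}` fails for `n = 615 = 3 * 5 * 41`, `p = 53`, `p' = 191`, even though both
primes are larger than every prime factor of `n`. -/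
theorem result : ∃ n p p' : ℕ, Odd n ∧ Squarefree n ∧ 1 < n ∧ p.Prime ∧ p'.Prime ∧ p < p' ∧
    (∀ q : ℕ, q.Prime → q ∣ n → q < p) ∧ ¬ p ∣ n ∧ ¬ p' ∣ n ∧
    realCritCount (n * p') < realCritCount (n * p) := by
  have hfac : ∀ q : ℕ, q.Prime → q ∣ 615 → q = 3 ∨ q = 5 ∨ q = 41 := by
    intro q hq hd
    have h1 : (615 : ℕ) = 3 * 5 * 41 := by norm_num
    rw [h1, Nat.Prime.dvd_mul hq, Nat.Prime.dvd_mul hq] at hd
    rcases hd with (hd | hd) | hd
    · left; exact (Nat.prime_dvd_prime_iff_eq hq (by norm_num)).1 hd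
    · right; left; exact (Nat.prime_dvd_prime_iff_eq hq (by norm_num)).1 hd
    · right; right; exact (Nat.prime_dvd_prime_iff_eq hq (by norm_num)).1 hd
  refine ⟨615, 53, 191, by decide, ?_, by norm_num, by norm_num, by norm_num, by norm_num, ?_,
    by norm_num, by norm_num, ?_⟩
  · rw [show (615 : ℕ) = 3 * 5 * 41 by norm_num, Nat.squarefree_mul (by norm_num),
      Nat.squarefree_mul (by norm_num)]
    exact ⟨⟨(by norm_num : Nat.Prime 3).squarefree, (by norm_num : Nat.Prime 5).squarefree⟩,
      (by norm_num : Nat.Prime 41).squarefree⟩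
  · intro q hq hd
    rcases hfac q hq hd with h | h | h <;> omega
  · have h1 := Pool.Agent.helper82.Cyc.cardA
    have h2 := Pool.Agent.helper82.Cyc.cardB
    have e1 : 615 * 191 = 117465 := by norm_num
    have e2 : 615 * 53 = 32595 := by norm_num
    unfold realCritCount
    rw [e1, e2]
    omega

end Pool.Agent.Results.MP_99db3a_nt.NotMonotone
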